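import Pool.Agent.X238.DW.Stm3

set_option autoImplicit false

namespace Pool.Agent.X130.DW

open MeasureTheory Set Filter Topology
open Pool.Agent.X238.DW
open Pool.Agent.Results.MP_8bcfe8_an.VelocityConstantMonotone (IsSol Adm intg2)

universe v

theorem t_UPP : S_UPP.{v} := by
  intro H _ _ _ A b T hb hI b' c hb' hc f u w F hf hF hsol y
  obtain ⟨γ0, hγ0, hE⟩ := Pool.Agent.X245.DW.t_EXB2.{v} c c b' hc le_rfl hb'
  obtain ⟨C1, hC1, hE⟩ := hE γ0 hγ0 le_rfl
  obtain ⟨M, hM⟩ := hsol.bdd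
  have hM0 : 0 ≤ M := (norm_nonneg _).trans (hM 0).1
  have hF0 : 0 ≤ F := by
    obtain ⟨t, ht⟩ := hF.exists
    exact (norm_nonneg _).trans ht
  refine ⟨∫ s in Ioi (0 : ℝ), M * (C1 * ‖y‖ * Real.exp (-(γ0 / 2 * s))), fun ε B hε hε1 hY p h hK => ?_⟩
  -- decay
  have hdec : ∀ s : ℝ, 0 ≤ s → ‖p s‖ ≤ C1 * ‖y‖ * Real.exp (-(γ0 / 2 * s)) ∧
      ‖h s‖ ≤ C1 * ‖y‖ * Real.exp (-(γ0 / 2 * s)) := by
    intro s hs
    have := hE H B hY.coer c ⟨le_rfl, le_rfl⟩ p h (fun _ => 0) 0 le_rfl (fun s _ => hK.dP s)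
      (fun s _ => by simpa using hK.dG s) hK.P0 (fun s _ => by simp) s hs
    rw [hK.G0, add_zero] at this
    exact this
  have hγ2 : 0 < γ0 / 2 := by positivity
  have hDec : DecV p h := ⟨γ0 / 2, C1 * ‖y‖, hγ2, hdec⟩
  have hhc : Continuous h := continuous_iff_continuousAt.2 fun s => (hK.dG s).continuousAt
  let Q : H →L[ℝ] H := T.comp T
  have hQ : ∀ x, Q x = T (T x) := fun x => rfl
  have hQs : ∀ x z : H, inner ℝ (Q x) z = inner ℝ x (T (T z)) := by
    intro x z
    rw [hQ, hI.symm, hI.symm]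
  have hfm : AEStronglyMeasurable (fun t => Q (f t) - ε • B (T (u t))) volume :=
    (Q.continuous.comp_aestronglyMeasurable hf).sub
      (((B.continuous.comp (T.continuous.comp hsol.cont_u)).const_smul ε).aestronglyMeasurable)
  have hεB : ∀ t, ‖ε • B (T (u t))‖ ≤ ε * M := by
    intro t
    rw [norm_smul, Real.norm_eq_abs, abs_of_pos hε]
    exact mul_le_mul_of_nonneg_left ((hY.contr _).trans (hM t).1) hε.le
  have hfb0 : ∀ᵐ t, ‖Q (f t)‖ ≤ ‖Q‖ * F := by
    filter_upwards [hF] with t ht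
    exact (Q.le_opNorm _).trans (mul_le_mul_of_nonneg_left ht (norm_nonneg _))
  have hQM : 0 ≤ ‖Q‖ * M := by positivity
  have hQF : 0 ≤ ‖Q‖ * F := by positivity
  have hfb : ∀ᵐ t, ‖Q (f t) - ε • B (T (u t))‖ ≤ ‖Q‖ * F + ‖Q‖ * M + M := by
    filter_upwards [hfb0] with t ht
    refine (norm_sub_le _ _).trans ?_
    have := hεB t
    have h2 : ε * M ≤ M := by nlinarith
    linarith
  have hfi : ∀ s t, IntervalIntegrable (fun t => Q (f t) - ε • B (T (u t))) volume s t := by
    intro s t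
    rw [intervalIntegrable_iff]
    refine Integrable.mono' (g := fun _ => ‖Q‖ * F + ‖Q‖ * M + M) (integrableOn_const (by
      rw [uIoc]; simp)) hfm.restrict ?_
    exact ae_restrict_of_ae hfb
  have hTu : ∀ x, T x = B (Q x) + ε • B (T x) := by
    intro x
    exact (hY.left (T x)).symm
  have hrep := Pool.Agent.X131.DW.t_REP2.{v} H c b' B hb' hY.coer y p h hK hDec
    (fun t => Q (f t) - ε • B (T (u t))) (fun t => Q (u t)) (fun t => Q (w t))
    (‖Q‖ * F + ‖Q‖ * M + M) hfm hfb (Q.continuous.comp hsol.cont_u) (Q.continuous.comp hsol.cont_w)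
    (fun t => by
      have h1 := (Q.le_opNorm (u t)).trans (mul_le_mul_of_nonneg_left (hM t).1 (norm_nonneg _))
      linarith)
    (fun t => by
      have h1 := (Q.le_opNorm (w t)).trans (mul_le_mul_of_nonneg_left (hM t).2 (norm_nonneg _))
      linarith)
    (by
      intro s t
      rw [← map_sub, hsol.eq_u s t]
      exact (Q.intervalIntegral_comp_comm (hsol.cont_w.intervalIntegrable _ _)).symm)
    (by
      intro s t
      have hAP : Continuous fun τ => B (Q (u τ)) :=
        B.continuous.comp (Q.continuous.comp hsol.cont_u)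
      have hcP : Continuous fun τ => c • Q (w τ) :=
        (Q.continuous.comp hsol.cont_w).const_smul c
      have hint : IntervalIntegrable (fun τ => (Q (f τ) - ε • B (T (u τ))) - c • Q (w τ) - B (Q (u τ)))
          volume s t := ((hfi s t).sub (hcP.intervalIntegrable _ _)).sub
            (hAP.intervalIntegrable _ _)
      refine ext_inner_right ℝ fun x => ?_
      have h1 : inner ℝ (Q (w t) - Q (w s)) x = inner ℝ (w t - w s) (T (T x)) := by
        rw [← map_sub, hQs]
      rw [h1, hsol.eq_w ⟨T (T x), hI.mem _⟩ s t]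
      have h2 : inner ℝ (∫ τ in s..t, ((Q (f τ) - ε • B (T (u τ))) - c • Q (w τ) - B (Q (u τ)))) x =
          ∫ τ in s..t, inner ℝ ((Q (f τ) - ε • B (T (u τ))) - c • Q (w τ) - B (Q (u τ))) x := by
        have := ContinuousLinearMap.intervalIntegral_comp_comm (innerSL ℝ x) hint
        simp only [innerSL_apply_apply] at this
        rw [real_inner_comm, ← this]
        congr 1
        ext τ
        rw [real_inner_comm]
      rw [h2]
      congr 1
      ext τ
      have h3 : (Q (f τ) - ε • B (T (u τ))) - c • Q (w τ) - B (Q (u τ)) =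
          Q (f τ) - c • Q (w τ) - T (u τ) := by
        conv_rhs => rw [hTu (u τ)]
        abel
      rw [h3, inner_sub_left, inner_sub_left, real_inner_smul_left, hQs, hQs, hI.right, hI.symm])
  have hrep' : inner ℝ (w 0) (T (T y)) =
      ∫ s in Ioi (0 : ℝ), inner ℝ (Q (f (-s)) - ε • B (T (u (-s)))) (h s) := by
    rw [← hQs]; exact hrep
  rw [hrep']
  have hFn : ∀ᵐ s, ‖f (-s)‖ ≤ F :=
    (Measure.measurePreserving_neg (volume : Measure ℝ)).quasiMeasurePreserving.ae hF
  have hQh : Continuous fun s => T (T (h s)) := T.continuous.comp (T.continuous.comp hhc)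
  have i1 : IntegrableOn (fun s => ‖T (T (h s))‖) (Ioi 0) := by
    refine (intg2 (γ := γ0 / 2) (C := ‖Q‖ * (C1 * ‖y‖)) hγ2 hQh fun s hs => ?_).norm
    have h1 := (Q.le_opNorm (h s)).trans (mul_le_mul_of_nonneg_left (hdec s hs).2 (norm_nonneg _))
    rw [hQ] at h1
    linarith
  have i2 : IntegrableOn (fun s => M * (C1 * ‖y‖ * Real.exp (-(γ0 / 2 * s)))) (Ioi 0) := by
    refine intg2 (γ := γ0 / 2) (C := M * (C1 * ‖y‖)) hγ2 (by fun_prop) fun s hs => ?_
    rw [Real.norm_eq_abs, abs_of_nonneg (by positivity)]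
    exact le_of_eq (by ring)
  have hle : ∀ᵐ s ∂(volume.restrict (Ioi (0 : ℝ))),
      ‖inner ℝ (Q (f (-s)) - ε • B (T (u (-s)))) (h s)‖ ≤
        ‖T (T (h s))‖ * F + ε * (M * (C1 * ‖y‖ * Real.exp (-(γ0 / 2 * s)))) := by
    filter_upwards [ae_restrict_of_ae hFn, ae_restrict_mem measurableSet_Ioi] with s hfs hs
    rw [inner_sub_left]
    refine (norm_sub_le _ _).trans (add_le_add ?_ ?_)
    · rw [hQs]
      refine (norm_inner_le_norm _ _).trans ?_
      rw [mul_comm]
      exact mul_le_mul_of_nonneg_left hfs (norm_nonneg _)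
    · refine (norm_inner_le_norm _ _).trans ?_
      have h1 := hεB (-s)
      have h2 := (hdec s (le_of_lt hs)).2
      calc ‖ε • B (T (u (-s)))‖ * ‖h s‖ ≤ (ε * M) * (C1 * ‖y‖ * Real.exp (-(γ0 / 2 * s))) :=
            mul_le_mul h1 h2 (norm_nonneg _) (by positivity)
        _ = _ := by ring
  have hfin := norm_integral_le_of_norm_le ((i1.mul_const F).add (i2.const_mul ε)) hle
  rw [Real.norm_eq_abs] at hfin
  refine hfin.trans (le_of_eq ?_)
  have e1 := integral_add (i1.mul_const F) (i2.const_mul ε)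
  simp only [Pi.add_apply] at *
  rw [e1, integral_mul_const, integral_const_mul]
  ring

end Pool.Agent.X130.DW
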